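import Pool.Agent.R333.Sel.Inv

/-!
# Divisible elements of Tate-Shafarevich groups and involutions

`L / K` is a finite Galois extension with group `G`, `τ` an element of `G` with `τ² = 1`, `T` the
subgroup of `G` generated by the products of two conjugates of `τ`, and `A` a discrete
`Gal(Ω/K)`-module (the points of the Jacobian of a curve over the global field `K`).  The group
`Ш(A/L)` has no nonzero divisible subgroup if and only if `Ш(A/L^τ)` and `Ш(A/L^T)` have none.
-/

set_option autoImplicit false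

namespace Pool.Agent.Results.MP_bd895b_nt.InvolutionDescent

open Pool.Agent.R333.Sel (Sel resAct)

/-- The Tate-Shafarevich group of the `Gal(Ω/F)`-module `A`: the classes in `H¹(F, A)` that are
trivial on the decomposition groups of all nontrivial absolute values of `Ω`. -/
abbrev Sha {F Ω A : Type} [Field F] [Field Ω] [Algebra F Ω] [AddCommGroup A]
    (ρ : Gal(Ω/F) →* AddMonoid.End A) : Type :=
  Sel ρ (⊤ : AddSubgroup A)

/-- There is no nonzero homomorphism from `ℚ` to `S` (equivalently, `S` has no nonzero divisible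
subgroup). -/
def NoDivisible (S : Type) [AddCommGroup S] : Prop := ∀ f : ℚ →+ S, f = 0

/-- `Ш(A/F)` has no nonzero divisible subgroup. -/
def ShaNoDivisible {K Ω A : Type} [Field K] [Field Ω] [Algebra K Ω] [AddCommGroup A]
    (ρ : Gal(Ω/K) →* AddMonoid.End A) (F : Type) [Field F] [Algebra K F] [Algebra F Ω]
    [IsScalarTower K F Ω] : Prop :=
  NoDivisible (Sha (resAct ρ F))

/-- The `Gal(Ω/K)`-module `A` is discrete: every element is fixed by the automorphisms that fix the
elements of some finite subset of `Ω`. -/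
def IsDiscrete {K Ω A : Type} [Field K] [Field Ω] [Algebra K Ω] [AddCommGroup A]
    (ρ : Gal(Ω/K) →* AddMonoid.End A) : Prop :=
  ∀ P : A, ∃ s : Finset Ω, ∀ σ : Gal(Ω/K), (∀ x ∈ s, σ x = x) → ρ σ P = P

/-- The subgroup of `G` generated by the products of two conjugates of `τ`. -/
def evenSubgroup {G : Type} [Group G] (τ : G) : Subgroup G :=
  Subgroup.closure {t : G | ∃ g h : G, t = (g * τ * g⁻¹) * (h * τ * h⁻¹)}

/-- `Ш(A/F)` has no nonzero divisible subgroup, for `F` the fixed field in `L` of the subgroup `H`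
of `Gal(L/K)`. -/
def ShaFixedNoDivisible {K L Ω A : Type} [Field K] [Field L] [Field Ω] [Algebra K L] [Algebra L Ω]
    [Algebra K Ω] [IsScalarTower K L Ω] [AddCommGroup A] (ρ : Gal(Ω/K) →* AddMonoid.End A)
    (H : Subgroup Gal(L/K)) : Prop :=
  ShaNoDivisible ρ (IntermediateField.fixedField H)

section Aux

open Pool.Agent.R333.Sel

theorem sel_iff {K L Ω A : Type} [Field K] [Field L] [Field Ω] [Algebra K L] [Algebra L Ω]
    [Algebra K Ω] [IsScalarTower K L Ω] [FiniteDimensional K L] [IsGalois K L] [Normal K Ω]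
    [AddCommGroup A] (ρ : Gal(Ω/K) →* AddMonoid.End A)
    (hρ : ∀ P : A, ∃ s : Finset Ω, ∀ σ : Gal(Ω/K), (∀ x ∈ s, σ x = x) → ρ σ P = P)
    (hT : ∀ σ : Gal(Ω/K), ∀ x ∈ (⊤ : AddSubgroup A), ρ σ x ∈ (⊤ : AddSubgroup A))
    (H : Subgroup Gal(L/K)) :
    NoRat (Sel (resAct ρ (IntermediateField.fixedField H)) (⊤ : AddSubgroup A)) ↔
      NoRat (Sm (sdat ρ ⊤ hT hρ) (H.comap (AlgEquiv.restrictNormalHom L))) := by
  have e : jr (K := K) (Ω := Ω) (IntermediateField.fixedField H) =
      H.comap (AlgEquiv.restrictNormalHom L) := by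
    rw [jr_eq, IntermediateField.fixingSubgroup_fixedField]
  rw [← e]
  exact ⟨fun h => noRat_congr (selEquiv ρ ⊤ hT hρ (IntermediateField.fixedField H)) h,
    fun h => noRat_congr (selEquiv ρ ⊤ hT hρ (IntermediateField.fixedField H)).symm h⟩

end Aux

/-- **Descent by an involution.** Let `L / K` be a finite Galois extension, `Ω` a separable closure of
`K` containing `L`, `A` a discrete `Gal(Ω/K)`-module, `τ` an element of `Gal(L/K)` with `τ² = 1` and
`T` the subgroup generated by the products of two conjugates of `τ`. The group `Ш(A/L)` has no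
nonzero divisible subgroup if and only if `Ш(A/F)` has none for the fixed fields `F` of `τ` and of
`T`. -/
theorem result (K L Ω A : Type) [Field K] [Field L] [Field Ω] [Algebra K L] [Algebra L Ω]
    [Algebra K Ω] [IsScalarTower K L Ω] [IsSepClosure K Ω] [FiniteDimensional K L] [IsGalois K L]
    [AddCommGroup A] (ρ : Gal(Ω/K) →* AddMonoid.End A) (hρ : IsDiscrete ρ) (τ : Gal(L/K))
    (hτ : τ * τ = 1) :
    ShaNoDivisible ρ L ↔
      ShaFixedNoDivisible ρ (Subgroup.zpowers τ) ∧ ShaFixedNoDivisible ρ (evenSubgroup τ) := by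
  have : IsGalois K Ω := IsSepClosure.isGalois
  have hsurj : Function.Surjective (AlgEquiv.restrictNormalHom L : Gal(Ω/K) → Gal(L/K)) :=
    AlgEquiv.restrictNormalHom_surjective Ω
  choose s hs using hsurj
  have hT : ∀ σ : Gal(Ω/K), ∀ x ∈ (⊤ : AddSubgroup A), ρ σ x ∈ (⊤ : AddSubgroup A) :=
    fun _ _ _ => AddSubgroup.mem_top _
  have hN := Pool.Agent.R333.Sel.ker_open (L := L) ρ ⊤ hT hρ
  have hL : ShaNoDivisible ρ L ↔ Pool.Agent.R333.Sel.NoRat (Pool.Agent.R333.Sel.Sm
      (Pool.Agent.R333.Sel.sdat ρ ⊤ hT hρ)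
        (AlgEquiv.restrictNormalHom (F := K) (K₁ := Ω) L).ker) := by
    rw [← Pool.Agent.R333.Sel.jr_top]
    exact ⟨fun h => Pool.Agent.R333.Sel.noRat_congr
        (Pool.Agent.R333.Sel.selEquiv ρ ⊤ hT hρ L) h,
      fun h => Pool.Agent.R333.Sel.noRat_congr
        (Pool.Agent.R333.Sel.selEquiv ρ ⊤ hT hρ L).symm h⟩
  have h1 := sel_iff ρ hρ hT (Subgroup.zpowers τ)
  have h2 := sel_iff ρ hρ hT (evenSubgroup τ)
  constructor
  · intro h
    have h3 := hL.1 h
    exact ⟨h1.2 (Pool.Agent.R333.Sel.noRat_sub _ _ s hs hN _ h3),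
      h2.2 (Pool.Agent.R333.Sel.noRat_sub _ _ s hs hN _ h3)⟩
  · rintro ⟨h3, h4⟩
    exact hL.2 (Pool.Agent.R333.Sel.noRat_inv _ _ s hs hN hτ (h1.1 h3) (h2.1 h4))

end Pool.Agent.Results.MP_bd895b_nt.InvolutionDescent
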