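import Pool.Agent.R925.ZC.Res

/-!
# The local-global complex for zero-cycles modulo 2 on almost all twists of a cyclic covering

Let `b y ^ 2 = ∏ k, G k (z, w)` be a hyperelliptic curve `D` over `ℚ`, where the `G k` are the
homogenisations of polynomials `g k` with integral coefficients, of even degrees, pairwise coprime.
Let `h` be a polynomial with integral coefficients, coprime to the `g k`, and `H` its homogenisation.
For a squarefree integer `a` and an even `m ∣ deg h` consider the curve

  `C a : b y ^ 2 = ∏ k, G k (z, w)`, `a x ^ m = H (z, w)`.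

It is a cyclic covering of degree `m` of `D`, and for different `a` these coverings are twists of each
other. Examples are the curves `b y ^ 2 = ∏ g k (a x ^ m)`, twists of the curve `b y ^ 2 = ∏ g k (x ^ m)`
by its automorphisms of order `m` (`h = z (z - 1) ^ (m - 1)` after a change of the coordinate). The
genus is arbitrary, and nothing is known about the Tate-Shafarevich groups of the Jacobians.

The functions `G k` have even divisors on `D`, so there are homomorphisms `z ↦ G k (z)` from `CH₀` of
`C a` over a field `F` of characteristic zero to `F* / F*²`: the value of a zero-cycle `∑ c i P i`,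
with points `P i` over finite extensions `E i` of `F`, is `∏ N (G k (P i)) ^ c i`. The quaternion algebras
`(G k, e)`, `e` a nonzero integer, belong to the Brauer group of `C a`.

We prove that for all squarefree `a`, `|a| ≤ X`, with at most `C X (log X) ^ (-κ)` exceptions, `κ > 0`,
and all `m`, the following holds for every adelic zero-cycle `(z_v)`, of degrees of the same parity at
all places (this is the orthogonality to the constant algebras of exponent 2), which is orthogonal to
the classes `(G k, e)`:

* (general) there are squarefree integers `n k` with `G k (z_v) = n k` in `ℚ_v* / ℚ_v*²` for all `k` and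
  all places `v`, and the family `n` is persistent: for every automorphism `σ` of the field of
  algebraic numbers there is a `σ`-stable set of zeros `β` of `h`, of cardinality congruent to the
  degree modulo 2, with `∏ β, g k (β) = n k * y k ^ 2`, `σ (y k) = y k`;
* (exactness) if the zeros of `h` are one or two rational numbers `α₁`, `α₂` (with any multiplicities),
  and if the degree is odd or `b ∏ g k (α₁)` is a square (so that there are rational points over `α₁`),
  then for every integer `d` of the parity of the degrees there is a zero-cycle `z` on `C a` over `ℚ` of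
  degree `d` such that `G k (z) = G k (z_v)` in `ℚ_v* / ℚ_v*²` for all `k` and all places `v`.

So for almost all `a` the local-global complex modulo 2 for `C a`

  `CH₀(C a) / 2 → ∏ v, CH₀(C a over ℚ_v) / 2 → Hom(Br, ℚ/ℤ)`

is exact up to elements of the kernels of the maps `(G k)`, without assumptions on Tate-Shafarevich
groups: every element of the kernel of the second map is the sum of the image of a zero-cycle over `ℚ`
(of a prescribed degree of the right parity) and of an element `(u_v)` of degree divisible by 2 with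
`G k (u_v) = 1` for all `k` and `v`.
-/

set_option autoImplicit false

namespace Pool.Agent.Results.MP_bd895b_nt.LocalGlobalComplexOfTwists

open Polynomial Pool.Agent.R925.FD Pool.Agent.R925.ZC

/-- The conditions on the polynomials: nonzero, the `g k` of even degrees, pairwise coprime over `ℚ`
and coprime to `h`, which is not constant. -/
structure Admissible {K : Type} (b : ℤ) (g : K → ℤ[X]) (h : ℤ[X]) : Prop where
  b_ne : b ≠ 0
  g_ne : ∀ k, g k ≠ 0
  h_deg : 1 ≤ h.natDegree
  deg : ∀ k, 2 ∣ (g k).natDegree
  coprime : ∀ k l, k ≠ l →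
    IsCoprime ((g k).map (Int.castRingHom ℚ)) ((g l).map (Int.castRingHom ℚ))
  coprime_h : ∀ k, IsCoprime (h.map (Int.castRingHom ℚ)) ((g k).map (Int.castRingHom ℚ))

/-- The squarefree integers `a`, `|a| ≤ X`, with the property `P` are at most
`C * X * (log X) ^ (-κ)`, for some `κ > 0` and `C`, for all `X ≥ 3`. -/
def AlmostNone (P : ℤ → Prop) : Prop :=
  ∃ κ : ℝ, 0 < κ ∧ ∃ C : ℝ, ∀ X : ℕ, 3 ≤ X →
    ({a : ℤ | a.natAbs ≤ X ∧ Squarefree a ∧ P a}.ncard : ℝ) ≤ C * X * (Real.log X) ^ (-κ)

/-- The adelic zero-cycle, of degree congruent to `d` modulo `2`, has the values of a persistent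
class. -/
def OfPersistentClass {K : Type} [Fintype K] [DecidableEq K] {m : ℕ} {b a : ℤ} {g : K → ℤ[X]}
    {h : ℤ[X]} (d : ℤ) (Z : AdelicCycle m b a g h) : Prop :=
  ∃ n : K → ℤ, (∀ k, Squarefree (n k)) ∧ IsClassZ d b (fun k => (n k : ℚ)) ∧
    ZPersistent d g h (fun k => (n k : ℚ)) ∧
    (∀ k, IsSquare (cycVal Z.re k * (n k : ℝ))) ∧
    ∀ k (p : Nat.Primes), IsSquare (cycVal (Z.pa p) k * (n k : ℚ_[(p : ℕ)]))

/-- **The local-global complex for zero-cycles on twisted coverings.** -/
theorem result {K : Type} [Fintype K] [DecidableEq K] (b : ℤ) (g : K → ℤ[X]) (h : ℤ[X])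
    (hA : Admissible b g h) :
    AlmostNone (fun a => ∃ m, 0 < m ∧ Even m ∧ m ∣ h.natDegree ∧
      ∃ (d : ℤ) (Z : AdelicCycle m b a g h), Z.Parity d ∧ Z.Orthogonal ∧ ¬ OfPersistentClass d Z) ∧
    (∀ α₁ α₂ : ℚ, (∀ β : AlgebraicClosure ℚ, aeval β h = 0 ↔ β = α₁ ∨ β = α₂) →
      AlmostNone (fun a => ∃ m, 0 < m ∧ Even m ∧ m ∣ h.natDegree ∧
        ∃ (d : ℤ) (Z : AdelicCycle m b a g h), Z.Parity d ∧ Z.Orthogonal ∧
          (Odd d ∨ IsSquare ((b : ℚ) * ∏ k, aeval α₁ (g k))) ∧
          ¬ ∃ z : Cycle m b a g h ℚ, z.degree = d ∧ SameValues Z z)) ∧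
    ∀ (m : ℕ) (a : ℤ) (Z : AdelicCycle m b a g h) (k : K) (e : ℤ), e ≠ 0 →
      (Pool.Agent.W313.BMX.ram (Z.values k) e).Finite := by
  refine ⟨?_, fun α₁ α₂ hz =>
    two_zeros hA.b_ne hA.g_ne hA.h_deg hA.deg hA.coprime hA.coprime_h hz,
    fun m a Z k e he => ram_finite hA.b_ne hA.g_ne (by
      rintro rfl
      have := hA.h_deg
      rw [natDegree_zero] at this
      omega) hA.deg hA.coprime hA.coprime_h Z k e he⟩
  obtain ⟨κ, hκ, C, hC⟩ := zc_main hA.b_ne hA.g_ne hA.h_deg hA.deg hA.coprime hA.coprime_h
  refine ⟨κ, hκ, C, fun X hX => le_trans ?_ (hC X hX)⟩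
  refine Nat.cast_le.2 (Set.ncard_le_ncard ?_ ?_)
  · rintro a ⟨h1, h2, m, _, hm, hmh, d, Z, h3, h4, h5⟩
    exact ⟨h1, h2, m, hm, hmh, d, Z, h3, h4, h5⟩
  · apply (Set.finite_Icc (-(X : ℤ)) X).subset
    intro d hd
    have h1 : d.natAbs ≤ X := hd.1
    rw [Set.mem_Icc]
    omega

end Pool.Agent.Results.MP_bd895b_nt.LocalGlobalComplexOfTwists
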