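import Pool.Agent.R673.LG.Main

/-!
# The local-global complex of zero-cycles of del Pezzo surfaces: reduction to minimal surfaces split
# by an extension of prime power degree

Let (E) be the exactness of the complex
`lim_n CH_0(X)/n → ∏_v lim_n CH_0(X_v)^*/n → Hom(Br(X), ℚ/ℤ)`,
and (E)_l the exactness of its `l`-primary part. We consider all del Pezzo surfaces `X` over all
number fields `K`.

1. (E) holds for all smooth cubic surfaces if and only if (E)_3 holds for the `K`-minimal cubic
   surfaces the 27 lines of which are defined over a Galois extension of `K` of 3-power degree (a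
   divisor of 81, the 3-part of the order of `W(E_6)`).
2. (E) holds for all del Pezzo surfaces of degree 4 if and only if (E)_2 holds for the `K`-minimal
   ones the 16 lines of which are defined over a Galois extension of `K` of 2-power degree.
3. (E) holds for all del Pezzo surfaces if and only if (E)_l holds for the `K`-minimal ones of degree
   `d ≤ 4` the exceptional curves of which are defined over a Galois extension of `K` of `l`-power
   degree, for the primes `l` which divide the number of exceptional curves (`16`, `27`, `56`, `240`
   for `d = 4, 3, 2, 1`).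

## Proof

(E) is equivalent to (E)_l for all primes `l` (`exact_iff`). Let `G` be the Galois group of the field
of definition of the exceptional curves and `K'` the field of invariants of a Sylow `l`-subgroup. An
element of the kernel of the second map restricts to such an element over `K'`, by the projection
formula for the corestriction of Brauer groups; by (E)_l for `X` over `K'` and the norm its multiple
by `[K' : K]`, a number prime to `l`, comes from `lim CH_0(X)/l^n` (`descent`). So we may assume that
`G` is an `l`-group. If `l` does not divide the number of exceptional curves, one of them is defined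
over `K`. Non-minimal surfaces are contracted to surfaces of greater degree; (E) is known if the
degree is at least 5, and for the cubic surfaces with a line defined over `K`.
-/

set_option autoImplicit false

namespace Pool.Agent.Results.MP_bd895b_nt.MinimalSurfacesPrimeByPrime

open Pool.Agent.R673.LG

/-- **The local-global complex of zero-cycles of del Pezzo surfaces.** -/
theorem result (𝒮 : DelPezzoSystem) :
    ((∀ X : 𝒮.Obj, 𝒮.deg X = 3 → (𝒮.cpx X).Exact) ↔
      ∀ X : 𝒮.Obj, 𝒮.deg X = 3 → 𝒮.IsCritical 3 X → (𝒮.cpx X).ExactAt 3) ∧
    ((∀ X : 𝒮.Obj, 𝒮.deg X = 4 → (𝒮.cpx X).Exact) ↔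
      ∀ X : 𝒮.Obj, 𝒮.deg X = 4 → 𝒮.IsCritical 2 X → (𝒮.cpx X).ExactAt 2) ∧
    ((∀ X : 𝒮.Obj, (𝒮.cpx X).Exact) ↔
      ∀ (l : ℕ) (X : 𝒮.Obj), l.Prime → 𝒮.deg X ≤ 4 → l ∣ excNumber (𝒮.deg X) →
        𝒮.IsCritical l X → (𝒮.cpx X).ExactAt l) :=
  ⟨main_cubic 𝒮, main_four 𝒮, main_all 𝒮⟩

end Pool.Agent.Results.MP_bd895b_nt.MinimalSurfacesPrimeByPrime
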